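import Pool.Agent.Helper93.KN.St

/-! Project KN (MP_77e955_nt), module AVG: averages of the product of `1 + 4 / l` -/

set_option autoImplicit false

noncomputable section

namespace Pool.Agent.Helper36.KN

open Finset ArithmeticFunction Pool.Agent.Helper93.KN

/-- the weight `1 / √d` -/
private def gg (d : ℕ) : ℝ := (Real.sqrt d)⁻¹

private theorem gg_nonneg (d : ℕ) : 0 ≤ gg d := inv_nonneg.2 (Real.sqrt_nonneg _)

/-- the divisor sum of the weight -/
private def DD (m : ℕ) : ℝ := ∑ d ∈ m.divisors, gg d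

private theorem DD_nonneg (m : ℕ) : 0 ≤ DD m := sum_nonneg fun d _ => gg_nonneg d

private theorem gg_prod (T : Finset ℕ) : ∏ l ∈ T, gg l = gg (∏ l ∈ T, l) := by
  induction T using Finset.induction_on with
  | empty => simp [gg]
  | insert a s ha ih =>
    rw [prod_insert ha, prod_insert ha, ih]
    unfold gg
    rw [Nat.cast_mul, Real.sqrt_mul (Nat.cast_nonneg _), mul_inv]

private theorem prod_le_DD (m : ℕ) (hm : m ≠ 0) : ∏ l ∈ m.primeFactors, (1 + gg l) ≤ DD m := by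
  rw [Finset.prod_one_add]
  have hinj : Set.InjOn (fun T : Finset ℕ => ∏ l ∈ T, l) (m.primeFactors.powerset : Set (Finset ℕ)) := by
    intro T hT T' hT' h
    have hT1 := mem_powerset.1 (mem_coe.1 hT)
    have hT2 := mem_powerset.1 (mem_coe.1 hT')
    have e1 := Nat.primeFactors_prod (s := T) fun p hp => Nat.prime_of_mem_primeFactors (hT1 hp)
    have e2 := Nat.primeFactors_prod (s := T') fun p hp => Nat.prime_of_mem_primeFactors (hT2 hp)
    have h' : ∏ l ∈ T, l = ∏ l ∈ T', l := h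
    rw [← e1, ← e2, h']
  have h1 : ∑ T ∈ m.primeFactors.powerset, ∏ l ∈ T, gg l =
      ∑ d ∈ m.primeFactors.powerset.image (fun T : Finset ℕ => ∏ l ∈ T, l), gg d := by
    rw [sum_image hinj]
    exact sum_congr rfl fun T _ => gg_prod T
  rw [h1]
  unfold DD
  refine sum_le_sum_of_subset_of_nonneg ?_ fun d _ _ => gg_nonneg d
  intro d hd
  obtain ⟨T, hT, rfl⟩ := mem_image.1 hd
  refine Nat.mem_divisors.2 ⟨?_, hm⟩
  exact (prod_dvd_prod_of_subset _ _ _ (mem_powerset.1 hT)).trans (Nat.prod_primeFactors_dvd m)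

private theorem ff_one_le (m : ℕ) : 1 ≤ ff m := by
  unfold ff
  exact Finset.one_le_prod fun l _ => by
    have : (0 : ℝ) ≤ 4 / (l : ℝ) := by positivity
    linarith

private theorem ff_mul_le (m m' : ℕ) : ff (m * m') ≤ ff m * ff m' := by
  by_cases h : m = 0 ∨ m' = 0
  · have h0 : m * m' = 0 := by
      rcases h with h | h <;> simp [h]
    have h1 : ff (m * m') = 1 := by
      rw [h0]
      simp [ff]
    rw [h1]
    nlinarith [ff_one_le m, ff_one_le m']
  · rw [not_or] at h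
    have h1 : ff (m * m') = ∏ l ∈ m.primeFactors ∪ m'.primeFactors, (1 + 4 / (l : ℝ)) := by
      unfold ff
      rw [Nat.primeFactors_mul h.1 h.2]
    have h2 := Finset.prod_union_inter (s₁ := m.primeFactors) (s₂ := m'.primeFactors)
      (f := fun l : ℕ => (1 + 4 / (l : ℝ)))
    have h3 : (1 : ℝ) ≤ ∏ l ∈ m.primeFactors ∩ m'.primeFactors, (1 + 4 / (l : ℝ)) :=
      Finset.one_le_prod fun l _ => by
        have : (0 : ℝ) ≤ 4 / (l : ℝ) := by positivity
        linarith
    have h4 : (0 : ℝ) ≤ ∏ l ∈ m.primeFactors ∪ m'.primeFactors, (1 + 4 / (l : ℝ)) :=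
      prod_nonneg fun l _ => by positivity
    rw [h1]
    change _ ≤ (∏ l ∈ m.primeFactors, (1 + 4 / (l : ℝ))) * ∏ l ∈ m'.primeFactors, (1 + 4 / (l : ℝ))
    rw [← h2]
    exact le_mul_of_one_le_right h4 h3

private theorem exists_L : ∃ L : ℕ, ∀ l : ℕ, L ≤ l → 624 * (1 / (l : ℝ)) ≤ gg l := by
  refine ⟨625 ^ 2, fun l hl => ?_⟩
  have h1 : (625 : ℝ) ≤ Real.sqrt l := by
    refine Real.le_sqrt_of_sq_le ?_
    exact_mod_cast hl
  have h2 : (0 : ℝ) < Real.sqrt l := by linarith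
  have h3 : (l : ℝ) = Real.sqrt l * Real.sqrt l := (Real.mul_self_sqrt (Nat.cast_nonneg l)).symm
  unfold gg
  rw [h3, Real.sqrt_mul_self h2.le, mul_one_div, div_le_iff₀ (mul_pos h2 h2), ← mul_assoc,
    inv_mul_cancel₀ h2.ne', one_mul]
  linarith

private theorem four_le (t : ℝ) (h0 : 0 ≤ t) (h1 : t ≤ 1) : (1 + 4 * t) ^ 4 ≤ 1 + 624 * t := by
  have h2 : t ^ 2 ≤ t := by nlinarith
  have h3 : t ^ 3 ≤ t := by nlinarith [mul_nonneg h0 h0]
  have h4 : t ^ 4 ≤ t := by nlinarith [mul_nonneg h0 h0, mul_nonneg (mul_nonneg h0 h0) h0]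
  nlinarith

private theorem exists_C₀ : ∃ C₀ : ℝ, 0 < C₀ ∧ ∀ m : ℕ, m ≠ 0 → ff m ^ 4 ≤ C₀ * DD m := by
  obtain ⟨L, hL⟩ := exists_L
  refine ⟨625 ^ L, by positivity, fun m hm => ?_⟩
  have h1 : ff m ^ 4 ≤ ∏ l ∈ m.primeFactors, ((if l < L then (625 : ℝ) else 1) * (1 + gg l)) := by
    unfold ff
    rw [← prod_pow]
    refine prod_le_prod (fun l _ => by positivity) fun l hl => ?_
    have hlp : 1 ≤ l := (Nat.prime_of_mem_primeFactors hl).one_le
    have ht0 : (0 : ℝ) ≤ 1 / (l : ℝ) := by positivity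
    have ht1 : 1 / (l : ℝ) ≤ 1 := by
      rw [div_le_one (by exact_mod_cast hlp)]
      exact_mod_cast hlp
    have h2 := four_le (1 / (l : ℝ)) ht0 ht1
    have h3 : (4 : ℝ) / l = 4 * (1 / l) := by ring
    rw [h3]
    refine h2.trans ?_
    have h4 := gg_nonneg l
    split_ifs with hlL
    · nlinarith
    · have h5 := hL l (not_lt.1 hlL)
      linarith
  refine h1.trans ?_
  rw [prod_mul_distrib]
  refine mul_le_mul ?_ (prod_le_DD m hm) (prod_nonneg fun l _ => by
    have := gg_nonneg l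
    linarith) (by positivity)
  rw [← prod_filter, prod_const]
  refine pow_le_pow_right₀ (by norm_num) ?_
  have h6 : m.primeFactors.filter (fun l => l < L) ⊆ range L := by
    intro l hl
    exact mem_range.2 (mem_filter.1 hl).2
  exact (card_le_card h6).trans (card_range L).le

private theorem sum_half (N : ℕ) : ∑ d ∈ Icc 1 N, gg d ≤ 2 * Real.sqrt N := by
  induction N with
  | zero => simp
  | succ N ih =>
    rw [sum_Icc_succ_top (by omega)]
    have ha : (0 : ℝ) ≤ Real.sqrt N := Real.sqrt_nonneg _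
    have hb : (0 : ℝ) < Real.sqrt ((N + 1 : ℕ) : ℝ) := Real.sqrt_pos.2 (by positivity)
    have h1 : Real.sqrt N * Real.sqrt N = N := Real.mul_self_sqrt (Nat.cast_nonneg N)
    have h2 : Real.sqrt ((N + 1 : ℕ) : ℝ) * Real.sqrt ((N + 1 : ℕ) : ℝ) = N + 1 := by
      rw [Real.mul_self_sqrt (Nat.cast_nonneg _)]
      push_cast
      ring
    have h3 : gg (N + 1) ≤ 2 * (Real.sqrt ((N + 1 : ℕ) : ℝ) - Real.sqrt N) := by
      unfold gg
      rw [inv_le_iff_one_le_mul₀ hb]
      nlinarith [sq_nonneg (Real.sqrt ((N + 1 : ℕ) : ℝ) - Real.sqrt N)]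
    linarith

private theorem sum_three (N : ℕ) : ∑ d ∈ Icc 1 N, gg d / d ≤ 3 := by
  have key : ∀ N : ℕ, ∑ d ∈ Icc 1 (N + 1), gg d / d ≤ 3 - 2 * gg (N + 1) := by
    intro N
    induction N with
    | zero => simp [gg]; norm_num
    | succ N ih =>
      rw [sum_Icc_succ_top (by omega)]
      have ha : (0 : ℝ) < Real.sqrt ((N + 1 : ℕ) : ℝ) := Real.sqrt_pos.2 (by positivity)
      have hb : (0 : ℝ) < Real.sqrt ((N + 1 + 1 : ℕ) : ℝ) := Real.sqrt_pos.2 (by positivity)
      have h1 : Real.sqrt ((N + 1 : ℕ) : ℝ) * Real.sqrt ((N + 1 : ℕ) : ℝ) = N + 1 := by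
        rw [Real.mul_self_sqrt (Nat.cast_nonneg _)]
        push_cast
        ring
      have h2 : Real.sqrt ((N + 1 + 1 : ℕ) : ℝ) * Real.sqrt ((N + 1 + 1 : ℕ) : ℝ) = N + 1 + 1 := by
        rw [Real.mul_self_sqrt (Nat.cast_nonneg _)]
        push_cast
        ring
      have h3 : gg (N + 1 + 1) / ((N + 1 + 1 : ℕ) : ℝ) ≤ 2 * gg (N + 1) - 2 * gg (N + 1 + 1) := by
        unfold gg
        set a := Real.sqrt ((N + 1 : ℕ) : ℝ)
        set b := Real.sqrt ((N + 1 + 1 : ℕ) : ℝ)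
        have h4 : ((N + 1 + 1 : ℕ) : ℝ) = b * b := by
          rw [h2]
          push_cast
          ring
        have hab : a ≤ b := Real.sqrt_le_sqrt (by push_cast; linarith)
        have h5 : b * b - a * a = 1 := by
          rw [h1, h2]
          ring
        rw [h4]
        have h6 : 2 * a⁻¹ - 2 * b⁻¹ - b⁻¹ / (b * b) = (2 * (b - a) * b * b - a) / (a * (b * b * b)) := by
          field_simp
        have h7 : 0 ≤ (2 * (b - a) * b * b - a) / (a * (b * b * b)) := by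
          refine div_nonneg ?_ (by positivity)
          have h8 : (b - a) * (b + a) = 1 := by linarith [h5, mul_comm a b]
          have h9 : (b - a) * (2 * b) ≥ 1 := by nlinarith
          nlinarith
        linarith
      linarith
  rcases Nat.eq_zero_or_pos N with h | h
  · rw [h]
    simp
  · obtain ⟨n, rfl⟩ : ∃ n, N = n + 1 := ⟨N - 1, by omega⟩
    have := key n
    have := gg_nonneg (n + 1)
    linarith

private theorem sum_DD_le {α : Type} (s : Finset α) (f : α → ℕ) (M : ℕ)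
    (h : ∀ i ∈ s, 1 ≤ f i ∧ f i ≤ M) : ∑ i ∈ s, DD (f i) ≤
      ∑ d ∈ Icc 1 M, gg d * ((s.filter (fun i => d ∣ f i)).card : ℝ) := by
  have h1 : ∀ i ∈ s, DD (f i) ≤ ∑ d ∈ Icc 1 M, if d ∣ f i then gg d else 0 := by
    intro i hi
    rw [← sum_filter]
    unfold DD
    refine sum_le_sum_of_subset_of_nonneg ?_ fun d _ _ => gg_nonneg d
    intro d hd
    have h2 := Nat.dvd_of_mem_divisors hd
    have h3 := Nat.le_of_dvd (h i hi).1 h2
    exact mem_filter.2 ⟨mem_Icc.2 ⟨Nat.pos_of_mem_divisors hd, h3.trans (h i hi).2⟩, h2⟩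
  refine (sum_le_sum h1).trans ?_
  rw [sum_comm]
  refine le_of_eq (sum_congr rfl fun d _ => ?_)
  rw [← sum_filter, sum_const, nsmul_eq_mul, mul_comm]

private theorem sum_DD (B : ℕ) : ∑ b ∈ Icc 1 B, DD b ≤ 3 * B := by
  refine (sum_DD_le (Icc 1 B) (fun b => b) B fun i hi => mem_Icc.1 hi).trans ?_
  have h1 : ∀ d ∈ Icc 1 B, gg d * (((Icc 1 B).filter (fun i => d ∣ i)).card : ℝ) ≤
      B * (gg d / d) := by
    intro d hd
    have hd1 := (mem_Icc.1 hd).1
    have h2 : ((Icc 1 B).filter (fun i => d ∣ i)).card ≤ B / d := by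
      have h3 : ((Icc 1 B).filter (fun i => d ∣ i)).card ≤ (Icc 1 (B / d)).card := by
        refine card_le_card_of_injOn (fun i => i / d) ?_ ?_
        · intro i hi
          have hi' := mem_filter.1 (mem_coe.1 hi)
          have hi2 := mem_Icc.1 hi'.1
          refine mem_coe.2 (mem_Icc.2 ⟨Nat.div_pos (Nat.le_of_dvd hi2.1 hi'.2) hd1,
            Nat.div_le_div_right hi2.2⟩)
        · intro i hi j hj hij
          have hi' := (mem_filter.1 (mem_coe.1 hi)).2
          have hj' := (mem_filter.1 (mem_coe.1 hj)).2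
          have hij' : i / d = j / d := hij
          rw [← Nat.div_mul_cancel hi', ← Nat.div_mul_cancel hj', hij']
      rwa [Nat.card_Icc, Nat.add_sub_cancel] at h3
    have h4 : (((Icc 1 B).filter (fun i => d ∣ i)).card : ℝ) ≤ B / d :=
      (Nat.cast_le.2 h2).trans Nat.cast_div_le
    calc gg d * (((Icc 1 B).filter (fun i => d ∣ i)).card : ℝ) ≤ gg d * (B / d) :=
          mul_le_mul_of_nonneg_left h4 (gg_nonneg d)
      _ = B * (gg d / d) := by ring
  refine (sum_le_sum h1).trans ?_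
  rw [← mul_sum]
  have h5 := mul_le_mul_of_nonneg_left (sum_three B) (Nat.cast_nonneg B (α := ℝ))
  linarith

private theorem sum_pairs (B : ℕ) (s : Finset (ℕ × ℕ)) (hs : s ⊆ Icc 1 B ×ˢ Icc 1 B)
    (f : ℕ × ℕ → ℕ) (hf : ∀ v ∈ s, 1 ≤ f v ∧ f v ≤ B * B)
    (hcl : ∀ v ∈ s, ∀ v' ∈ s, v.1 = v'.1 → ∀ d, d ∣ f v → d ∣ f v' → v.2 ≡ v'.2 [MOD d]) :
    ∑ v ∈ s, DD (f v) ≤ 5 * (B : ℝ) ^ 2 := by
  refine (sum_DD_le s f (B * B) hf).trans ?_
  have h1 : ∀ d ∈ Icc 1 (B * B), gg d * ((s.filter (fun v => d ∣ f v)).card : ℝ) ≤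
      B ^ 2 * (gg d / d) + B * gg d := by
    intro d hd
    have hd1 := (mem_Icc.1 hd).1
    have h2 : (s.filter (fun v => d ∣ f v)).card ≤
        (B / d + 1) * ((s.filter (fun v => d ∣ f v)).image Prod.fst).card := by
      refine card_le_mul_card_image _ _ fun b _ => ?_
      have h3 : ((s.filter (fun v => d ∣ f v)).filter (fun v => v.1 = b)).card ≤
          (range (B / d + 1)).card := by
        refine card_le_card_of_injOn (fun v => v.2 / d) ?_ ?_
        · intro v hv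
          have hv1 := (mem_filter.1 (mem_filter.1 (mem_coe.1 hv)).1).1
          have hv2 := (mem_Icc.1 (mem_product.1 (hs hv1)).2).2
          exact mem_coe.2 (mem_range.2 (Nat.lt_succ_of_le (Nat.div_le_div_right hv2)))
        · intro v hv v' hv' h
          have hv1 := mem_filter.1 (mem_coe.1 hv)
          have hv2 := mem_filter.1 hv1.1
          have hv1' := mem_filter.1 (mem_coe.1 hv')
          have hv2' := mem_filter.1 hv1'.1
          have h4 : v.1 = v'.1 := hv1.2.trans hv1'.2.symm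
          have h5 : v.2 % d = v'.2 % d := hcl v hv2.1 v' hv2'.1 h4 d hv2.2 hv2'.2
          have h6 : v.2 / d = v'.2 / d := h
          refine Prod.ext h4 ?_
          rw [← Nat.div_add_mod v.2 d, ← Nat.div_add_mod v'.2 d, h5, h6]
      rwa [card_range] at h3
    have h7 : ((s.filter (fun v => d ∣ f v)).image Prod.fst).card ≤ B := by
      have h8 : (s.filter (fun v => d ∣ f v)).image Prod.fst ⊆ Icc 1 B := by
        intro b hb
        obtain ⟨v, hv, rfl⟩ := mem_image.1 hb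
        exact (mem_product.1 (hs (mem_filter.1 hv).1)).1
      have h9 := card_le_card h8
      rwa [Nat.card_Icc, Nat.add_sub_cancel] at h9
    have h10 : (s.filter (fun v => d ∣ f v)).card ≤ (B / d + 1) * B :=
      h2.trans (Nat.mul_le_mul_left _ h7)
    have h11 : ((s.filter (fun v => d ∣ f v)).card : ℝ) ≤ ((B : ℝ) / d + 1) * B := by
      refine (Nat.cast_le.2 h10).trans ?_
      push_cast
      have h12 : ((B / d : ℕ) : ℝ) ≤ B / d := Nat.cast_div_le
      exact mul_le_mul_of_nonneg_right (by linarith) (Nat.cast_nonneg B)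
    calc gg d * ((s.filter (fun v => d ∣ f v)).card : ℝ) ≤ gg d * (((B : ℝ) / d + 1) * B) :=
          mul_le_mul_of_nonneg_left h11 (gg_nonneg d)
      _ = B ^ 2 * (gg d / d) + B * gg d := by ring
  refine (sum_le_sum h1).trans ?_
  rw [sum_add_distrib, ← mul_sum, ← mul_sum]
  have h5 := mul_le_mul_of_nonneg_left (sum_three (B * B)) (by positivity : (0 : ℝ) ≤ (B : ℝ) ^ 2)
  have h6 := mul_le_mul_of_nonneg_left (sum_half (B * B)) (Nat.cast_nonneg B (α := ℝ))
  have h7 : Real.sqrt ((B * B : ℕ) : ℝ) = B := by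
    push_cast
    exact Real.sqrt_mul_self (Nat.cast_nonneg B)
  rw [h7] at h6
  nlinarith

theorem hAvg : StAvg := by
  obtain ⟨C₀, hC₀, h4⟩ := exists_C₀
  refine ⟨5 * C₀, by positivity, fun B _ => ⟨?_, ?_⟩⟩
  · have h1 : ∀ b ∈ Icc 1 B, ff b ≤ C₀ * DD b := by
      intro b hb
      have hb1 := (mem_Icc.1 hb).1
      have h2 := h4 b (by omega)
      have h3 : ff b ≤ ff b ^ 4 := le_self_pow₀ (ff_one_le b) (by norm_num)
      exact h3.trans h2
    refine (sum_le_sum h1).trans ?_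
    rw [← mul_sum]
    have h5 := mul_le_mul_of_nonneg_left (sum_DD B) hC₀.le
    have h6 : (0 : ℝ) ≤ C₀ * B := by positivity
    nlinarith
  · set s : Finset (ℕ × ℕ) := (Icc 1 B ×ˢ Icc 1 B).filter (fun v : ℕ × ℕ => v.1 ≠ v.2) with hs
    have hmem : ∀ v ∈ s, (1 ≤ v.1 ∧ v.1 ≤ B) ∧ (1 ≤ v.2 ∧ v.2 ≤ B) ∧ v.1 ≠ v.2 := by
      intro v hv
      have h := mem_filter.1 hv
      have h' := mem_product.1 h.1
      exact ⟨mem_Icc.1 h'.1, mem_Icc.1 h'.2, h.2⟩
    have hsub : s ⊆ Icc 1 B ×ˢ Icc 1 B := filter_subset _ _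
    have hprod : ∀ v ∈ s, 2 ≤ v.1 * v.2 := by
      intro v hv
      obtain ⟨h1, h2, h3⟩ := hmem v hv
      rcases Nat.lt_or_gt_of_ne h3 with h | h
      · nlinarith
      · nlinarith
    have hle : ∀ v ∈ s, v.1 * v.2 ≤ B * B := by
      intro v hv
      obtain ⟨h1, h2, h3⟩ := hmem v hv
      exact Nat.mul_le_mul h1.2 h2.2
    have hab : ∀ v ∈ s, 1 ≤ ((v.1 : ℤ) - v.2).natAbs ∧ ((v.1 : ℤ) - v.2).natAbs ≤ B := by
      intro v hv
      obtain ⟨h1, h2, h3⟩ := hmem v hv
      omega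
    have hBB : ∀ v ∈ s, B ≤ B * B := by
      intro v hv
      obtain ⟨h1, h2, h3⟩ := hmem v hv
      nlinarith
    have hpt : ∀ v ∈ s, ff (EE v.1 v.2) ≤ C₀ / 4 * (DD v.1 + DD v.2 +
        DD ((v.1 : ℤ) - v.2).natAbs + DD (v.1 * v.2 - 1)) := by
      intro v hv
      obtain ⟨h1, h2, h3⟩ := hmem v hv
      have e1 : ff (EE v.1 v.2) ≤ ff v.1 * ff v.2 * ff ((v.1 : ℤ) - v.2).natAbs *
          ff (v.1 * v.2 - 1) := by
        unfold EE
        refine (ff_mul_le _ _).trans ?_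
        refine mul_le_mul_of_nonneg_right ?_ (zero_le_one.trans (ff_one_le _))
        refine (ff_mul_le _ _).trans ?_
        exact mul_le_mul_of_nonneg_right (ff_mul_le _ _) (zero_le_one.trans (ff_one_le _))
      have a1 := h4 v.1 (by omega)
      have a2 := h4 v.2 (by omega)
      have a3 := h4 ((v.1 : ℤ) - v.2).natAbs (by have := (hab v hv).1; omega)
      have a4 := h4 (v.1 * v.2 - 1) (by have := hprod v hv; omega)
      generalize ff v.1 = x at *
      generalize ff v.2 = y at *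
      generalize ff ((v.1 : ℤ) - v.2).natAbs = z at *
      generalize ff (v.1 * v.2 - 1) = w at *
      have e2 : x * y * z * w ≤ (x ^ 4 + y ^ 4 + z ^ 4 + w ^ 4) / 4 := by
        nlinarith [sq_nonneg (x * y - z * w), sq_nonneg (x ^ 2 - y ^ 2), sq_nonneg (z ^ 2 - w ^ 2)]
      linarith
    refine (sum_le_sum hpt).trans ?_
    rw [← mul_sum, sum_add_distrib, sum_add_distrib, sum_add_distrib]
    have s1 : ∑ v ∈ s, DD v.1 ≤ 3 * (B : ℝ) ^ 2 := by
      refine (sum_le_sum_of_subset_of_nonneg hsub fun v _ _ => DD_nonneg v.1).trans ?_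
      rw [sum_product]
      have h5 : ∀ b ∈ Icc 1 B, ∑ c ∈ Icc 1 B, DD ((b, c) : ℕ × ℕ).1 = B * DD b := by
        intro b _
        show ∑ c ∈ Icc 1 B, DD b = B * DD b
        rw [sum_const, Nat.card_Icc, Nat.add_sub_cancel, nsmul_eq_mul]
      rw [sum_congr rfl h5, ← mul_sum]
      have h6 := mul_le_mul_of_nonneg_left (sum_DD B) (Nat.cast_nonneg B (α := ℝ))
      nlinarith
    have s2 : ∑ v ∈ s, DD v.2 ≤ 5 * (B : ℝ) ^ 2 := by
      refine sum_pairs B s hsub (fun v => v.2) (fun v hv => ⟨(hmem v hv).2.1.1,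
        (hmem v hv).2.1.2.trans (hBB v hv)⟩) ?_
      intro v _ v' _ _ d h h'
      exact ((Nat.modEq_zero_iff_dvd).2 h).trans ((Nat.modEq_zero_iff_dvd).2 h').symm
    have s3 : ∑ v ∈ s, DD ((v.1 : ℤ) - v.2).natAbs ≤ 5 * (B : ℝ) ^ 2 := by
      refine sum_pairs B s hsub (fun v => ((v.1 : ℤ) - v.2).natAbs) (fun v hv => ⟨(hab v hv).1,
        (hab v hv).2.trans (hBB v hv)⟩) ?_
      intro v _ v' _ hvv d h h'
      have k1 : (d : ℤ) ∣ (v.1 : ℤ) - v.2 := Int.natCast_dvd.2 h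
      have k2 : (d : ℤ) ∣ (v'.1 : ℤ) - v'.2 := Int.natCast_dvd.2 h'
      rw [Nat.modEq_iff_dvd]
      have k3 := dvd_sub k1 k2
      rw [hvv] at k3
      have k4 : ((v'.1 : ℤ) - v.2) - ((v'.1 : ℤ) - v'.2) = (v'.2 : ℤ) - v.2 := by ring
      rwa [k4] at k3
    have s4 : ∑ v ∈ s, DD (v.1 * v.2 - 1) ≤ 5 * (B : ℝ) ^ 2 := by
      refine sum_pairs B s hsub (fun v => v.1 * v.2 - 1) (fun v hv => ?_) ?_
      · have := hprod v hv
        have := hle v hv
        constructor
        · show 1 ≤ v.1 * v.2 - 1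
          omega
        · show v.1 * v.2 - 1 ≤ B * B
          omega
      intro v hv v' hv' hvv d h h'
      have p1 := hprod v hv
      have p2 := hprod v' hv'
      have k1 : 1 ≡ v.1 * v.2 [MOD d] := (Nat.modEq_iff_dvd' (by omega)).2 h
      have k2 : 1 ≡ v'.1 * v'.2 [MOD d] := (Nat.modEq_iff_dvd' (by omega)).2 h'
      have k3 : v.2 * 1 ≡ v.2 * (v'.1 * v'.2) [MOD d] := k2.mul_left _
      have k4 : v'.2 * 1 ≡ v'.2 * (v.1 * v.2) [MOD d] := k1.mul_left _
      have k5 : v.2 * (v'.1 * v'.2) = v'.2 * (v.1 * v.2) := by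
        rw [hvv]
        ring
      rw [k5, mul_one] at k3
      rw [mul_one] at k4
      exact k3.trans k4.symm
    have hC4 : (0 : ℝ) ≤ C₀ / 4 := by positivity
    have hfin := mul_le_mul_of_nonneg_left (add_le_add (add_le_add (add_le_add s1 s2) s3) s4) hC4
    refine hfin.trans ?_
    have h7 : (0 : ℝ) ≤ C₀ * (B : ℝ) ^ 2 := by positivity
    nlinarith

end Pool.Agent.Helper36.KN
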